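import Pool.Agent.W_d1cfb0_h99.FinC

/-!
# `Σ_n` is topologically finitely generated iff the homeomorphism group of the boundary of the
cube is

`Σ_n` is the group of the measure preserving homeomorphisms of the cube `I^n`, `n ≥ 2`.
-/

namespace Pool.Agent.Results.MP_d1cfb0_an.BoundaryGroup

open MeasureTheory

/-- The closed cube `I^n = [0,1]^n` in Euclidean space. -/
def Cube (n : ℕ) : Set (EuclideanSpace ℝ (Fin n)) := {x | ∀ i, x i ∈ Set.Icc (0:ℝ) 1}

/-- The boundary of the cube: the points of the cube with some coordinate equal to `0` or `1`. -/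
def CubeBoundary (n : ℕ) : Set (EuclideanSpace ℝ (Fin n)) :=
  {x | x ∈ Cube n ∧ ∃ i, x i = 0 ∨ x i = 1}

/-- The homeomorphism `T` of the cube preserves Lebesgue measure, i.e. `T ∈ Σ_n`. -/
def PreservesVolume {n : ℕ} (T : Cube n ≃ₜ Cube n) : Prop :=
  ∀ A : Set (EuclideanSpace ℝ (Fin n)), MeasurableSet A → A ⊆ Cube n →
    volume (Subtype.val '' (T '' (Subtype.val ⁻¹' A))) = volume A

/-- The assertion of Q1 for `n`: finitely many elements of `Σ_n` generate a dense subgroup of
`Σ_n` (uniform convergence of maps and inverses). -/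
def SigmaFG (n : ℕ) : Prop :=
  ∃ (k : ℕ) (T : Fin k → (Cube n ≃ₜ Cube n)), (∀ i, PreservesVolume (T i)) ∧
    ∀ h : Cube n ≃ₜ Cube n, PreservesVolume h → ∀ ε : ℝ, 0 < ε →
      ∃ g ∈ Subgroup.closure (Set.range T),
        ∀ p : Cube n, dist (g p) (h p) < ε ∧ dist (g⁻¹ p) (h⁻¹ p) < ε

/-- Finitely many homeomorphisms of the boundary of the cube generate a dense subgroup of the group
of all homeomorphisms of the boundary (uniform convergence of maps and inverses). -/
def BoundaryFG (n : ℕ) : Prop :=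
  ∃ (k : ℕ) (T : Fin k → (CubeBoundary n ≃ₜ CubeBoundary n)),
    ∀ h : CubeBoundary n ≃ₜ CubeBoundary n, ∀ ε : ℝ, 0 < ε →
      ∃ g ∈ Subgroup.closure (Set.range T),
        ∀ p : CubeBoundary n, dist (g p) (h p) < ε ∧ dist (g⁻¹ p) (h⁻¹ p) < ε

theorem result (n : ℕ) (hn : 2 ≤ n) : SigmaFG n ↔ BoundaryFG n :=
  Pool.Agent.W_d1cfb0_h99.sigFG_iff hn

end Pool.Agent.Results.MP_d1cfb0_an.BoundaryGroup
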