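import Pool.Agent.W_d1cfb0_h99.FinD

/-!
# Finitely many volume preserving homeomorphisms of the cube `[0,1]^n`, `n = 2` or `n = 3`, generate
a dense subgroup

The cases `n = 2` and `n = 3` of Q1.
-/

namespace Pool.Agent.Results.MP_d1cfb0_an.DimLeThree

open MeasureTheory

/-- The closed cube `I^n = [0,1]^n` in Euclidean space. -/
def Cube (n : ℕ) : Set (EuclideanSpace ℝ (Fin n)) := {x | ∀ i, x i ∈ Set.Icc (0:ℝ) 1}

/-- The homeomorphism `T` of the cube preserves Lebesgue measure, i.e. `T ∈ Σ_n`. -/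
def PreservesVolume {n : ℕ} (T : Cube n ≃ₜ Cube n) : Prop :=
  ∀ A : Set (EuclideanSpace ℝ (Fin n)), MeasurableSet A → A ⊆ Cube n →
    volume (Subtype.val '' (T '' (Subtype.val ⁻¹' A))) = volume A

/-- The assertion of Q1 for `n`: finitely many elements of `Σ_n` generate a dense subgroup of
`Σ_n` (uniform convergence of maps and inverses). -/
def SigmaFG (n : ℕ) : Prop :=
  ∃ (k : ℕ) (T : Fin k → (Cube n ≃ₜ Cube n)), (∀ i, PreservesVolume (T i)) ∧
    ∀ h : Cube n ≃ₜ Cube n, PreservesVolume h → ∀ ε : ℝ, 0 < ε →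
      ∃ g ∈ Subgroup.closure (Set.range T),
        ∀ p : Cube n, dist (g p) (h p) < ε ∧ dist (g⁻¹ p) (h⁻¹ p) < ε

theorem result (n : ℕ) (h2 : 2 ≤ n) (h3 : n ≤ 3) : SigmaFG n :=
  Pool.Agent.W_d1cfb0_h99.sigFG_le_three h2 h3

end Pool.Agent.Results.MP_d1cfb0_an.DimLeThree
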