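import Pool.Agent.W_d1cfb0_h99.FinC

/-!
# Finitely many elements of `Σ_n` whose closed group contains all elements with stable boundary
values

`Σ_n` is the group of the measure preserving homeomorphisms of the cube `I^n`. For every `n ≥ 2` the
closed group generated by a suitable finite subset of `Σ_n` contains every `h` in `Σ_n` whose
restriction to the boundary is a limit of products of homeomorphisms of the boundary which are the
identity on some nonempty open set, or reflections.
-/

namespace Pool.Agent.Results.MP_d1cfb0_an.StableBoundary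

open MeasureTheory

/-- The closed cube `I^n = [0,1]^n` in Euclidean space. -/
def Cube (n : ℕ) : Set (EuclideanSpace ℝ (Fin n)) := {x | ∀ i, x i ∈ Set.Icc (0:ℝ) 1}

/-- The boundary of the cube: the points of the cube with some coordinate equal to `0` or `1`. -/
def CubeBoundary (n : ℕ) : Set (EuclideanSpace ℝ (Fin n)) :=
  {x | x ∈ Cube n ∧ ∃ i, x i = 0 ∨ x i = 1}

/-- The homeomorphism `T` of the cube preserves Lebesgue measure, i.e. `T ∈ Σ_n`. -/
def PreservesVolume {n : ℕ} (T : Cube n ≃ₜ Cube n) : Prop :=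
  ∀ A : Set (EuclideanSpace ℝ (Fin n)), MeasurableSet A → A ⊆ Cube n →
    volume (Subtype.val '' (T '' (Subtype.val ⁻¹' A))) = volume A

/-- `b` is the identity on a nonempty open subset of the boundary of the cube. -/
def FixesOpenSet {n : ℕ} (b : CubeBoundary n ≃ₜ CubeBoundary n) : Prop :=
  ∃ O : Set (CubeBoundary n), IsOpen O ∧ O.Nonempty ∧ ∀ x ∈ O, b x = x

/-- `b` is the reflection `x_i ↦ 1 - x_i` for some `i`. -/
def IsReflection {n : ℕ} (b : CubeBoundary n ≃ₜ CubeBoundary n) : Prop :=
  ∃ i, ∀ p : CubeBoundary n,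
    (b p : EuclideanSpace ℝ (Fin n)) i = 1 - (p : EuclideanSpace ℝ (Fin n)) i ∧
    ∀ j, j ≠ i → (b p : EuclideanSpace ℝ (Fin n)) j = (p : EuclideanSpace ℝ (Fin n)) j

/-- The group generated by the homeomorphisms of the boundary which are the identity on some nonempty
open set, and the reflections. -/
def StableGroup (n : ℕ) : Subgroup (CubeBoundary n ≃ₜ CubeBoundary n) :=
  Subgroup.closure {b | FixesOpenSet b ∨ IsReflection b}

/-- The restriction of `h` to the boundary is a uniform limit, together with the inverse, of elements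
of `StableGroup n`. -/
def StableOnBoundary {n : ℕ} (h : Cube n ≃ₜ Cube n) : Prop :=
  ∀ ε : ℝ, 0 < ε → ∃ b ∈ StableGroup n, ∀ p : CubeBoundary n,
    dist (b p : EuclideanSpace ℝ (Fin n)) (h ⟨p, p.2.1⟩ : Cube n) < ε ∧
    dist (b⁻¹ p : EuclideanSpace ℝ (Fin n)) (h⁻¹ ⟨p, p.2.1⟩ : Cube n) < ε

theorem result (n : ℕ) (hn : 2 ≤ n) :
    ∃ (k : ℕ) (T : Fin k → (Cube n ≃ₜ Cube n)), (∀ i, PreservesVolume (T i)) ∧
      ∀ h : Cube n ≃ₜ Cube n, PreservesVolume h → StableOnBoundary h → ∀ ε : ℝ, 0 < ε →
        ∃ g ∈ Subgroup.closure (Set.range T),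
          ∀ p : Cube n, dist (g p) (h p) < ε ∧ dist (g⁻¹ p) (h⁻¹ p) < ε :=
  Pool.Agent.W_d1cfb0_h99.stable_part hn

end Pool.Agent.Results.MP_d1cfb0_an.StableBoundary
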